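import Pool.Agent.MP_a56558_gt.F.FI

set_option autoImplicit false

namespace Pool.Agent.Results.MP_a56558_gt.ConfluentSpan

open Set Filter Topology

/-- If the span is zero, every subcontinuum of the square with equal projections meets the diagonal. -/
private theorem spanZero_of_sSup {α : Type} [MetricSpace α] [CompactSpace α]
    (h : sSup {a : ℝ | 0 ≤ a ∧ ∃ C : Set (α × α), IsConnected C ∧
      Prod.fst '' C = Prod.snd '' C ∧ ∀ z ∈ C, a ≤ dist z.1 z.2} = 0) :
    Pool.Agent.MP_a56558_gt.SpanZero α := by
  intro Z hZc hZn hZ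
  by_contra hcon
  have hcomp : IsCompact Z := hZc.isCompact
  obtain ⟨z0, hz0, hmin⟩ := hcomp.exists_isMinOn hZn.nonempty
    (f := fun z : α × α => dist z.1 z.2) (by fun_prop)
  have hpos : 0 < dist z0.1 z0.2 := by
    rw [dist_pos]
    intro he
    apply hcon
    refine ⟨z0.1, ?_⟩
    have : (z0.1, z0.1) = z0 := Prod.ext rfl he
    rw [this]
    exact hz0
  have hbdd : BddAbove {a : ℝ | 0 ≤ a ∧ ∃ C : Set (α × α), IsConnected C ∧
      Prod.fst '' C = Prod.snd '' C ∧ ∀ z ∈ C, a ≤ dist z.1 z.2} := by
    refine ⟨Metric.diam (univ : Set α), ?_⟩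
    rintro a ⟨-, C, hC, -, hCa⟩
    obtain ⟨z, hz⟩ := hC.nonempty
    exact (hCa z hz).trans (Metric.dist_le_diam_of_mem isCompact_univ.isBounded
      (mem_univ _) (mem_univ _))
  have hmem : dist z0.1 z0.2 ∈ {a : ℝ | 0 ≤ a ∧ ∃ C : Set (α × α), IsConnected C ∧
      Prod.fst '' C = Prod.snd '' C ∧ ∀ z ∈ C, a ≤ dist z.1 z.2} :=
    ⟨hpos.le, Z, hZn, hZ, fun z hz => hmin hz⟩
  have := le_csSup hbdd hmem
  rw [h] at this
  linarith

private theorem sSup_of_spanZero {α : Type} [MetricSpace α] [CompactSpace α]
    (h : Pool.Agent.MP_a56558_gt.SpanZero α) :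
    sSup {a : ℝ | 0 ≤ a ∧ ∃ C : Set (α × α), IsConnected C ∧
      Prod.fst '' C = Prod.snd '' C ∧ ∀ z ∈ C, a ≤ dist z.1 z.2} = 0 := by
  apply le_antisymm
  · apply Real.sSup_le _ le_rfl
    rintro a ⟨-, C, hC, hproj, hCa⟩
    have hK : IsCompact (closure C) := isClosed_closure.isCompact
    have h1 : Prod.fst '' closure C = closure (Prod.fst '' C) :=
      (image_closure_of_isCompact hK continuous_fst.continuousOn)
    have h2 : Prod.snd '' closure C = closure (Prod.snd '' C) :=
      (image_closure_of_isCompact hK continuous_snd.continuousOn)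
    obtain ⟨x, hx⟩ := h (closure C) isClosed_closure hC.closure (by rw [h1, h2, hproj])
    have hcl : closure C ⊆ {z : α × α | a ≤ dist z.1 z.2} := by
      apply closure_minimal hCa
      exact isClosed_le continuous_const (continuous_fst.dist continuous_snd)
    have := hcl hx
    simpa using this
  · apply Real.sSup_nonneg
    rintro a ⟨h0, -⟩
    exact h0

/-- Confluent images of continua of span zero have span zero. Here the span of a compact connected
metric space is, as usual, the least upper bound of the numbers `a ≥ 0` for which some connected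
subset `C` of the square has the same image under the two projections and satisfies
`dist x y ≥ a` for all its points `(x, y)`; a surjection `f` is confluent when it maps every
component of the preimage of every subcontinuum `K` onto `K`. -/
theorem result {X Y : Type} [MetricSpace X] [CompactSpace X] [ConnectedSpace X]
    [MetricSpace Y] [CompactSpace Y] [ConnectedSpace Y] (f : X → Y)
    (hf : Continuous f) (hs : Function.Surjective f)
    (hc : ∀ K : Set Y, IsClosed K → IsConnected K →
      ∀ x ∈ f ⁻¹' K, f '' connectedComponentIn (f ⁻¹' K) x = K)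
    (hX : sSup {a : ℝ | 0 ≤ a ∧ ∃ C : Set (X × X), IsConnected C ∧
      Prod.fst '' C = Prod.snd '' C ∧ ∀ z ∈ C, a ≤ dist z.1 z.2} = 0) :
    sSup {a : ℝ | 0 ≤ a ∧ ∃ C : Set (Y × Y), IsConnected C ∧
      Prod.fst '' C = Prod.snd '' C ∧ ∀ z ∈ C, a ≤ dist z.1 z.2} = 0 :=
  sSup_of_spanZero (Pool.Agent.MP_a56558_gt.spanZero_of_confluent hf hs hc (spanZero_of_sSup hX))

end Pool.Agent.Results.MP_a56558_gt.ConfluentSpan
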